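import Pool.Agent.Helper34.CP.Goals

/-!
# Packet SYSQ: quotients of Cuntz-Pimsner systems
-/

namespace Pool.Agent.Helper51.CP

open Pool.Agent.Helper39.Uct Pool.Agent.Helper34.CP

/-- The linear map of a *-homomorphism. -/
def lin {B B' : Type} [NonUnitalCStarAlgebra B] [NonUnitalCStarAlgebra B']
    (π : B →⋆ₙₐ[ℂ] B') : B →ₗ[ℂ] B' where
  toFun := π
  map_add' := map_add π
  map_smul' := map_smul π

theorem lin_apply {B B' : Type} [NonUnitalCStarAlgebra B] [NonUnitalCStarAlgebra B']
    (π : B →⋆ₙₐ[ℂ] B') (x : B) : lin π x = π x := rfl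

theorem cont {B B' : Type} [NonUnitalCStarAlgebra B] [NonUnitalCStarAlgebra B']
    (π : B →⋆ₙₐ[ℂ] B') : Continuous π :=
  AddMonoidHomClass.continuous_of_bound π 1
    (by simpa only [one_mul] using NonUnitalStarAlgHom.norm_apply_le π)

theorem sysq : S_SYSQ := by
  rintro B B' _ _ π hπ ⟨E, hE, A, _, hA, ι, hι⟩
  have hc : Continuous π := cont π
  let E' : ℕ → Submodule ℂ B' := fun n => ((E n).map (lin π)).topologicalClosure
  have hsub : ∀ n, ∀ x ∈ E n, π x ∈ E' n := fun n x hx =>
    Submodule.le_topologicalClosure _ ⟨x, hx, rfl⟩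
  -- the image of `E 0` is closed
  have hr : Set.range (π.comp ι) = ((E 0).map (lin π) : Set B') := by
    ext y
    constructor
    · rintro ⟨a, rfl⟩
      refine ⟨ι a, ?_, rfl⟩
      have : ι a ∈ Set.range ι := ⟨a, rfl⟩
      rwa [hι] at this
    · rintro ⟨x, hx, rfl⟩
      have : x ∈ Set.range ι := by
        rw [hι]
        exact hx
      obtain ⟨a, rfl⟩ := this
      exact ⟨a, rfl⟩
  have hcl : IsClosed ((E 0).map (lin π) : Set B') := by
    rw [← hr]
    exact t_RC A B' (π.comp ι)
  have h0 : (E' 0 : Set B') = ((E 0).map (lin π) : Set B') := by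
    show (((E 0).map (lin π)).topologicalClosure : Set B') = _
    rw [Submodule.topologicalClosure_coe, hcl.closure_eq]
  -- extension to closures
  have hmem : ∀ n x, x ∈ E' n ↔ x ∈ closure (π '' (E n : Set B)) := by
    intro n x
    rfl
  have hE'c : ∀ n, IsClosed (E' n : Set B') := fun n => Submodule.isClosed_topologicalClosure _
  refine ⟨E', ⟨hE'c, ?_, ?_, ?_, ?_⟩, A, inferInstance, hA, π.comp ι, ?_⟩
  · -- star0
    intro x hx
    refine map_mem_closure (f := star) continuous_star ((hmem 0 x).1 hx) ?_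
    rintro _ ⟨z, hz, rfl⟩
    exact ⟨star z, hE.star0 z hz, map_star π z⟩
  · -- mul
    intro m n x hx y hy
    have := map_mem_closure₂ (f := fun a b : B' => a * b) continuous_mul ((hmem m x).1 hx)
      ((hmem n y).1 hy) (u := π '' (E (m + n) : Set B)) ?_
    · exact (hmem (m + n) _).2 this
    · rintro _ ⟨a, ha, rfl⟩ _ ⟨b, hb, rfl⟩
      exact ⟨a * b, hE.mul m n a ha b hb, map_mul π a b⟩
  · -- left
    intro m n x hx y hy
    have := map_mem_closure₂ (f := fun a b : B' => star a * b) (by fun_prop) ((hmem m x).1 hx)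
      ((hmem (m + n) y).1 hy) (u := π '' (E n : Set B)) ?_
    · exact (hmem n _).2 this
    · rintro _ ⟨a, ha, rfl⟩ _ ⟨b, hb, rfl⟩
      refine ⟨star a * b, hE.left m n a ha b hb, ?_⟩
      rw [map_mul, map_star]
  · -- gen
    intro S hS h b'
    obtain ⟨b, rfl⟩ := hπ b'
    exact hE.gen (S.comap π) (hS.preimage hc) (fun n x hx => h n (π x) (hsub n x hx)) b
  · rw [h0, hr]

end Pool.Agent.Helper51.CP
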